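import Pool.Agent.Q110.BI.Main

/-!
# MP_f42b44_co, Q1: broadcast irredundance is at most irredundance in trees

For every tree `T` with at least two vertices `ir_b(T) ≤ γ_b(T) ≤ ir(T)`.

The definitions of broadcasts, of `irB` (the broadcast irredundance number `ir_b`) and of `gammaB`
(the broadcast number `γ_b`) are in `Pool.Agent.Q110.BC.Defs`; the definition of `irNum` (the
irredundance number `ir`) is in `Pool.Agent.Q110.BI.Main`.
-/

set_option autoImplicit false

namespace Pool.Agent.Results.MP_f42b44_co.TreesIrredundance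

open Q110.BC Q110.BI

/-- Every tree `T` with at least two vertices satisfies `ir_b(T) ≤ γ_b(T)` and
`γ_b(T) ≤ ir(T)`; in particular `ir_b(T) ≤ ir(T)`. -/
theorem result (V : Type) [Fintype V] [DecidableEq V] (T : SimpleGraph V) (hT : T.IsTree)
    (hV : 2 ≤ Fintype.card V) : irB T ≤ gammaB T ∧ gammaB T ≤ irNum T :=
  ⟨irB_le_gammaB hT.1 hV, gammaB_le hT.1 hV (acyclic_h3 hT.2) (acyclic_h4 hT.2)⟩

end Pool.Agent.Results.MP_f42b44_co.TreesIrredundance
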